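import Mathlib

set_option autoImplicit false

/-!
# Subspace lattices over division rings and over fields have the same sublattices

A left vector space `V` over a division ring `D` is a vector space over the centre `F` of `D`, every
`D`-subspace is an `F`-subspace, and intersections and sums of `D`-subspaces are the same if they are
formed as `F`-subspaces. So the lattice of the `D`-subspaces of `V` is a sublattice of the lattice
of its `F`-subspaces.
-/

namespace Pool.Agent.Results.MP_332034_al.RestrictScalars

universe u v w

/-- For every lattice `L`, every division ring `D` and every left `D`-vector space `V`: if `L` embeds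
into the lattice of subspaces of `V` (an injective map which preserves binary joins and meets) then
there are a field `F` and an `F`-vector space `W` such that `L` embeds into the lattice of subspaces of
`W`. One can take `W = V` as an additive group. -/
theorem result (L : Type u) [Lattice L] (D : Type v) [DivisionRing D] (V : Type w)
    [AddCommGroup V] [Module D V] (f : L → Submodule D V) (hf : Function.Injective f)
    (hinf : ∀ a b, f (a ⊓ b) = f a ⊓ f b) (hsup : ∀ a b, f (a ⊔ b) = f a ⊔ f b) :
    ∃ (F : Type v) (_ : Field F) (W : Type w) (_ : AddCommGroup W) (_ : Module F W)
      (g : L → Submodule F W), Function.Injective g ∧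
        (∀ a b, g (a ⊓ b) = g a ⊓ g b) ∧ ∀ a b, g (a ⊔ b) = g a ⊔ g b := by
  refine ⟨Subring.center D, inferInstance, V, inferInstance, inferInstance,
    fun a => (f a).restrictScalars (Subring.center D), ?_, ?_, ?_⟩
  · intro a b h
    exact hf (Submodule.restrictScalars_injective _ _ _ h)
  · intro a b
    ext x
    simp [hinf]
  · intro a b
    ext x
    simp only [Submodule.restrictScalars_mem, hsup, Submodule.mem_sup]

end Pool.Agent.Results.MP_332034_al.RestrictScalars
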